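import Pool.Agent.H83.G.Targets2

/-!
# Theorem G (MP_ee74d2_an), row AEN: amplitudes and energy
-/

set_option autoImplicit false

namespace Pool.Agent.H92.G.AEN

open MeasureTheory Set
open scoped ENNReal NNReal RealInnerProductSpace
open Pool.Agent.H83.G

theorem sR_pos {R : ℝ} (hR : 1 ≤ R) : 0 < sR R := by
  unfold sR
  exact inv_pos.2 (Real.sqrt_pos.2 (by linarith))

theorem sR_le_one {R : ℝ} (hR : 1 ≤ R) : sR R ≤ 1 := by
  unfold sR
  exact inv_le_one_of_one_le₀ (by rw [Real.one_le_sqrt]; exact hR)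

theorem sR_inv_sq {R : ℝ} (hR : 1 ≤ R) : ((sR R)⁻¹) ^ 2 = R := by
  unfold sR
  rw [inv_inv, Real.sq_sqrt (by linarith)]

theorem sR_pow {R : ℝ} (hR : 1 ≤ R) (m : ℕ) : sR R ^ (m + 2) * R ^ (((m : ℝ) + 2) / 2) = 1 := by
  have h0 : 0 < R := by linarith
  have h1 : sR R = R ^ (-(1 / 2) : ℝ) := by
    unfold sR
    rw [Real.sqrt_eq_rpow, ← Real.rpow_neg h0.le]
  rw [h1, ← Real.rpow_natCast, ← Real.rpow_mul h0.le, ← Real.rpow_add h0]
  rw [show (-(1 / 2) : ℝ) * ((m + 2 : ℕ) : ℝ) + ((m : ℝ) + 2) / 2 = 0 by push_cast; ring]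
  exact Real.rpow_zero R

theorem fc_sub (hLOA : T_LOA) {m : ℕ} (R δ : ℝ) (k : Fin m → ℤ) (z z' : Z m) :
    fc R δ k z - fc R δ k z' = R ^ (-δ) • Lo (ctr (sR R) k) (sR R) (z - z') := by
  unfold fc
  rw [((hLOA m).1 _ _ z z').2.1, smul_sub]

/-- the sum over the planks of a cap -/
theorem sum_wt (hWT3 : T_WT3) (hLOA : T_LOA) (hLOB : T_LOB) (hPUS : T_PUS)
    (m N N' : ℕ) (δ : ℝ) (hδ : 0 ≤ δ) (hN : N' + m + 3 ≤ N) : ∃ C : ℝ≥0, ∀ (R : ℝ) (z₀ z : Z m)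
    (k : Fin m → ℤ) (T : Finset (Zi m)), 1 ≤ R → k ∈ Ks m (sR R) →
    (∀ l ∈ T, ∃ z₁, ‖z₁ - z₀‖ ≤ R ∧ ‖fc R δ k z₁ - zc l‖ ≤ R ^ δ) →
    ∑ l ∈ T, ENNReal.ofReal (wt N (fc R δ k z - zc l)) ≤
      C * ENNReal.ofReal (wt N' (R ^ (-(1 + 2 * δ)) • (z - z₀))) := by
  obtain ⟨-, -, D, hD, -, -, hctr⟩ := hPUS m
  obtain ⟨C, -, hC, -⟩ := hWT3 m N (by omega)
  set b : ℝ := 4 * (1 + D) ^ 2 with hb
  have hb4 : 4 ≤ b := by nlinarith [sq_nonneg D]
  refine ⟨C * Real.toNNReal ((1 + b) ^ N'), ?_⟩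
  intro R z₀ z k T hR hk hT
  have hR0 : 0 < R := by linarith
  have hs := sR_pos hR
  set ρ : ℝ := R ^ (-(1 + 2 * δ)) * ‖z - z₀‖ with hρ
  have hρ0 : 0 ≤ ρ := by positivity
  have hwt : wt N' (R ^ (-(1 + 2 * δ)) • (z - z₀)) = ((1 + ρ) ^ N')⁻¹ := by
    unfold wt
    rw [norm_smul, Real.norm_of_nonneg (by positivity)]
  have hsum : ∀ ρ' : ℝ, 0 ≤ ρ' → (∀ l ∈ T, ρ' ≤ ‖fc R δ k z - zc l‖) →
      ∑ l ∈ T, ENNReal.ofReal (wt N (fc R δ k z - zc l)) ≤
        C * ENNReal.ofReal ((1 + ρ') ^ (m + 3) * ((1 + ρ') ^ N)⁻¹) := by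
    intro ρ' h1 h2
    have h3 := hC (fc R δ k z) ρ' (T : Set (Zi m)) h1 (fun l hl => h2 l hl)
    have h4 : ∑' l : (T : Set (Zi m)), ENNReal.ofReal (wt N (fc R δ k z - zc (l : Zi m))) =
        ∑ l ∈ T, ENNReal.ofReal (wt N (fc R δ k z - zc l)) :=
      Finset.tsum_subtype' T (fun l => ENNReal.ofReal (wt N (fc R δ k z - zc l)))
    rw [h4] at h3
    exact h3
  have hmain : ∃ ρ' : ℝ, 0 ≤ ρ' ∧ (∀ l ∈ T, ρ' ≤ ‖fc R δ k z - zc l‖) ∧ 1 + ρ ≤ (1 + b) * (1 + ρ') := by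
    by_cases hcase : ρ ≤ b
    · exact ⟨0, le_rfl, fun l _ => norm_nonneg _, by linarith⟩
    · push Not at hcase
      refine ⟨ρ / b, by positivity, ?_, ?_⟩
      · intro l hl
        obtain ⟨z₁, h1, h2⟩ := hT l hl
        have h3 : ‖z - z₀‖ = R ^ (1 + 2 * δ) * ρ := by
          rw [hρ, ← mul_assoc, ← Real.rpow_add hR0]
          simp
        have h4 : R ≤ R ^ (1 + 2 * δ) := by
          nth_rw 1 [← Real.rpow_one R]
          exact Real.rpow_le_rpow_of_exponent_le hR (by linarith)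
        have h5 : R ^ (1 + 2 * δ) * ρ / 2 ≤ ‖z - z₁‖ := by
          have h6 : ‖z - z₀‖ ≤ ‖z - z₁‖ + ‖z₁ - z₀‖ := by
            have := norm_add_le (z - z₁) (z₁ - z₀)
            rwa [sub_add_sub_cancel] at this
          have h7 : R ≤ R ^ (1 + 2 * δ) * ρ / 2 := by
            have : R ^ (1 + 2 * δ) * 2 ≤ R ^ (1 + 2 * δ) * ρ :=
              mul_le_mul_of_nonneg_left (by linarith) (by positivity)
            linarith
          linarith
        have h8 := (hLOB m D hD.le).2.1 (ctr (sR R) k) (sR R) (z - z₁)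
          (hctr (sR R) k hs (sR_le_one hR) hk) hs (sR_le_one hR)
        rw [sR_inv_sq hR] at h8
        have h9 : ‖fc R δ k z - fc R δ k z₁‖ = R ^ (-δ) * ‖Lo (ctr (sR R) k) (sR R) (z - z₁)‖ := by
          rw [fc_sub hLOA, norm_smul, Real.norm_of_nonneg (by positivity)]
        have h10 : ‖fc R δ k z - fc R δ k z₁‖ ≤ ‖fc R δ k z - zc l‖ + ‖fc R δ k z₁ - zc l‖ := by
          have := norm_sub_le (fc R δ k z - zc l) (fc R δ k z₁ - zc l)
          rwa [sub_sub_sub_cancel_right] at this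
        -- lower bound
        have h11 : R ^ δ * (2 * ρ / b) ≤ ‖fc R δ k z - fc R δ k z₁‖ := by
          rw [h9]
          have h12 : R ^ (1 + 2 * δ) * ρ / 2 ≤ (1 + D) ^ 2 * R * ‖Lo (ctr (sR R) k) (sR R) (z - z₁)‖ :=
            h5.trans h8
          have h13 : R ^ (1 + 2 * δ) = R * (R ^ δ * R ^ δ) := by
            rw [← Real.rpow_add hR0, show (1 : ℝ) + 2 * δ = 1 + (δ + δ) by ring,
              Real.rpow_add hR0, Real.rpow_one]
          have h14 : R ^ (-δ) * R ^ δ = 1 := by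
            rw [← Real.rpow_add hR0]; simp
          have h15 : 0 < (1 + D) ^ 2 := by positivity
          have h16 : R ^ δ * R ^ δ * ρ / 2 ≤ (1 + D) ^ 2 *
              ‖Lo (ctr (sR R) k) (sR R) (z - z₁)‖ := by
            have : R * (R ^ δ * R ^ δ * ρ / 2) ≤ R * ((1 + D) ^ 2 *
                ‖Lo (ctr (sR R) k) (sR R) (z - z₁)‖) := by
              rw [h13] at h12
              linarith
            exact le_of_mul_le_mul_left this hR0
          have h17 : R ^ (-δ) * (R ^ δ * R ^ δ * ρ / 2) ≤ R ^ (-δ) * ((1 + D) ^ 2 *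
              ‖Lo (ctr (sR R) k) (sR R) (z - z₁)‖) :=
            mul_le_mul_of_nonneg_left h16 (by positivity)
          have h18 : R ^ (-δ) * (R ^ δ * R ^ δ * ρ / 2) = R ^ δ * ρ / 2 := by
            calc R ^ (-δ) * (R ^ δ * R ^ δ * ρ / 2) = (R ^ (-δ) * R ^ δ) * (R ^ δ * ρ / 2) := by ring
              _ = _ := by rw [h14, one_mul]
          rw [h18] at h17
          rw [show R ^ δ * (2 * ρ / b) = (R ^ δ * ρ / 2) / (1 + D) ^ 2 by rw [hb]; field_simp; ring]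
          rw [div_le_iff₀ h15]
          linarith
        have h19 : R ^ δ * 1 ≤ R ^ δ * (ρ / b) :=
          mul_le_mul_of_nonneg_left ((one_le_div (by linarith)).2 hcase.le) (by positivity)
        have h20 : 1 ≤ R ^ δ := Real.one_le_rpow hR hδ
        have h21 : ρ / b ≤ R ^ δ * (ρ / b) := le_mul_of_one_le_left (by positivity) h20
        have h22 : R ^ δ * (2 * ρ / b) = R ^ δ * (ρ / b) + R ^ δ * (ρ / b) := by ring
        linarith
      · have h1 : (1 + b) * (1 + ρ / b) = 1 + ρ + b + ρ / b := by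
          field_simp
          ring
        rw [h1]
        have : 0 ≤ ρ / b := by positivity
        linarith
  obtain ⟨ρ', h1, h2, h3⟩ := hmain
  refine (hsum ρ' h1 h2).trans ?_
  rw [hwt]
  push_cast
  rw [mul_assoc]
  refine mul_le_mul_right ?_ _
  change _ ≤ ENNReal.ofReal ((1 + b) ^ N') * _
  rw [← ENNReal.ofReal_mul (by positivity)]
  refine ENNReal.ofReal_le_ofReal ?_
  have g1 : (1 + ρ) ^ N' ≤ (1 + b) ^ N' * (1 + ρ') ^ N' := by
    rw [← mul_pow]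
    exact pow_le_pow_left₀ (by linarith) h3 _
  have g2 : (1 + ρ') ^ (m + 3) * (1 + ρ') ^ N' ≤ (1 + ρ') ^ N := by
    rw [← pow_add]
    exact pow_le_pow_right₀ (by linarith) (by omega)
  rw [← div_eq_mul_inv, ← div_eq_mul_inv, div_le_div_iff₀ (by positivity) (by positivity)]
  calc (1 + ρ') ^ (m + 3) * (1 + ρ) ^ N' ≤ (1 + ρ') ^ (m + 3) * ((1 + b) ^ N' * (1 + ρ') ^ N') :=
        mul_le_mul_of_nonneg_left g1 (by positivity)
    _ = (1 + b) ^ N' * ((1 + ρ') ^ (m + 3) * (1 + ρ') ^ N') := by ring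
    _ ≤ _ := mul_le_mul_of_nonneg_left g2 (by positivity)

theorem sum_lintegral_le {α ι : Type*} [MeasurableSpace α] (μ : Measure α) (T : Finset ι)
    (f : ι → α → ℝ≥0∞) : ∑ i ∈ T, ∫⁻ z, f i z ∂μ ≤ ∫⁻ z, ∑ i ∈ T, f i z ∂μ := by
  classical
  induction T using Finset.induction_on with
  | empty => simp
  | insert i T hi ih =>
    rw [Finset.sum_insert hi]
    simp only [Finset.sum_insert hi]
    exact (add_le_add le_rfl ih).trans (le_lintegral_add _ _)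

theorem pf_AEN (_hWT1 : T_WT1) (hWT3 : T_WT3) (hLOA : T_LOA) (hLOB : T_LOB) (hPUS : T_PUS)
    (_hSCH : T_SCH) (_hCPS : T_CPS) : T_AEN := by
  classical
  intro m N N' β δ hβ hδ hN
  obtain ⟨C, hC⟩ := sum_wt hWT3 hLOA hLOB hPUS m N N' δ hδ hN
  refine ⟨C, ?_⟩
  intro R G z₀ S hR hG hsupp hS
  have hR0 : 0 < R := by linarith
  -- one wave packet
  have h1 : ∀ W : Pk m, al2 N β R δ G W * ENNReal.ofReal (R ^ (((m : ℝ) + 2) / 2)) ≤
      ∫⁻ z, ‖TP β (ctr (sR R) W.1) (sR R) G z‖ₑ ^ 2 *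
        ENNReal.ofReal (wt N (fc R δ W.1 z - zc W.2)) := by
    intro W
    unfold al2
    rw [mul_right_comm, ← ENNReal.ofReal_mul (by have := sR_pos hR; positivity), mul_assoc, sR_pow hR,
      mul_one]
    have h2 : ENNReal.ofReal (R ^ (-(δ * ((m : ℝ) + 2)))) ≤ 1 := by
      rw [ENNReal.ofReal_le_one]
      exact Real.rpow_le_one_of_one_le_of_nonpos hR (by
        have : 0 ≤ δ * ((m : ℝ) + 2) := by positivity
        linarith)
    calc _ ≤ 1 * _ := mul_le_mul_left h2 _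
      _ = _ := one_mul _
  -- one cap
  have h3 : ∀ k ∈ Ks m (sR R), ∑ W ∈ S.filter (fun W => W.1 = k),
      ∫⁻ z, ‖TP β (ctr (sR R) W.1) (sR R) G z‖ₑ ^ 2 *
        ENNReal.ofReal (wt N (fc R δ W.1 z - zc W.2)) ≤
      C * ∫⁻ z, ‖TP β (ctr (sR R) k) (sR R) G z‖ₑ ^ 2 *
        ENNReal.ofReal (wt N' (R ^ (-(1 + 2 * δ)) • (z - z₀))) := by
    intro k hk
    refine (sum_lintegral_le volume _ _).trans ?_
    rw [← lintegral_const_mul' _ _ ENNReal.coe_ne_top]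
    refine lintegral_mono fun z => ?_
    have h4 : ∑ W ∈ S.filter (fun W => W.1 = k), ‖TP β (ctr (sR R) W.1) (sR R) G z‖ₑ ^ 2 *
        ENNReal.ofReal (wt N (fc R δ W.1 z - zc W.2)) =
        ‖TP β (ctr (sR R) k) (sR R) G z‖ₑ ^ 2 *
          ∑ l ∈ (S.filter (fun W => W.1 = k)).image Prod.snd,
            ENNReal.ofReal (wt N (fc R δ k z - zc l)) := by
      rw [Finset.sum_image, Finset.mul_sum]
      · refine Finset.sum_congr rfl fun W hW => ?_
        rw [(Finset.mem_filter.1 hW).2]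
      · intro W hW W' hW' h
        have e1 := (Finset.mem_filter.1 hW).2
        have e2 := (Finset.mem_filter.1 hW').2
        exact Prod.ext (e1.trans e2.symm) h
    simp only
    rw [h4, ← mul_assoc, mul_comm (C : ℝ≥0∞), mul_assoc]
    refine mul_le_mul_right (hC R z₀ z k _ hR hk ?_) _
    intro l hl
    obtain ⟨W, hW, rfl⟩ := Finset.mem_image.1 hl
    obtain ⟨hW1, hW2⟩ := Finset.mem_filter.1 hW
    obtain ⟨z₁, h5, h6⟩ := (hS W hW1).2
    unfold near at h6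
    rw [hW2] at h6
    exact ⟨z₁, h5, h6⟩
  calc ∑ W ∈ S, al2 N β R δ G W * ENNReal.ofReal (R ^ (((m : ℝ) + 2) / 2))
      ≤ ∑ W ∈ S, ∫⁻ z, ‖TP β (ctr (sR R) W.1) (sR R) G z‖ₑ ^ 2 *
        ENNReal.ofReal (wt N (fc R δ W.1 z - zc W.2)) := Finset.sum_le_sum fun W _ => h1 W
    _ = ∑ k ∈ Ks m (sR R), ∑ W ∈ S.filter (fun W => W.1 = k),
        ∫⁻ z, ‖TP β (ctr (sR R) W.1) (sR R) G z‖ₑ ^ 2 *
          ENNReal.ofReal (wt N (fc R δ W.1 z - zc W.2)) :=
        (Finset.sum_fiberwise_of_maps_to (fun W hW => (hS W hW).1) _).symm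
    _ ≤ ∑ k ∈ Ks m (sR R), C * ∫⁻ z, ‖TP β (ctr (sR R) k) (sR R) G z‖ₑ ^ 2 *
        ENNReal.ofReal (wt N' (R ^ (-(1 + 2 * δ)) • (z - z₀))) := Finset.sum_le_sum h3
    _ = C * Er N' β R δ G z₀ := by
        unfold Er
        rw [Finset.mul_sum]

end Pool.Agent.H92.G.AEN
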