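import Pool.Agent.H83.G.Targets2

/-!
# Theorem G (MP_ee74d2_an), row DCP: wave packet decomposition in a ball
-/

set_option autoImplicit false

namespace Pool.Agent.H92.G.DCP

open MeasureTheory Set Filter
open scoped ENNReal NNReal RealInnerProductSpace
open Pool.Agent.H83.G

theorem sR_pos {R : ℝ} (hR : 1 ≤ R) : 0 < sR R := by
  unfold sR
  exact inv_pos.2 (Real.sqrt_pos.2 (by linarith))

theorem sR_le_one {R : ℝ} (hR : 1 ≤ R) : sR R ≤ 1 := by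
  unfold sR
  exact inv_le_one_of_one_le₀ (by rw [Real.one_le_sqrt]; exact hR)

theorem sR_inv_sq {R : ℝ} (hR : 1 ≤ R) : ((sR R)⁻¹) ^ 2 = R := by
  unfold sR
  rw [inv_inv, Real.sq_sqrt (by linarith)]

theorem fc_sub (hLOA : T_LOA) {m : ℕ} (R δ : ℝ) (k : Fin m → ℤ) (z z' : Z m) :
    fc R δ k z - fc R δ k z' = R ^ (-δ) • Lo (ctr (sR R) k) (sR R) (z - z') := by
  unfold fc
  rw [((hLOA m).1 _ _ z z').2.1, smul_sub]

/-- lattice points in a ball -/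
theorem ball_card (hWT3 : T_WT3) (m : ℕ) : ∃ C : ℝ, 1 ≤ C ∧ ∀ (x : Z m) (ρ : ℝ), 1 ≤ ρ →
    ∃ h : {l : Zi m | ‖zc l - x‖ ≤ ρ}.Finite, (h.toFinset.card : ℝ) ≤ C * ρ ^ (m + 2) := by
  classical
  obtain ⟨C, hC, -⟩ := hWT3 m (m + 3) le_rfl
  set B : ℝ := (C : ℝ) * 2 ^ (m + 3) + 1 with hB
  have hB1 : 1 ≤ B := by
    have := C.2
    have : 0 ≤ (C : ℝ) * 2 ^ (m + 3) := by positivity
    linarith
  refine ⟨B, hB1, ?_⟩
  intro x ρ hρ
  have hρ0 : 0 < ρ := by linarith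
  have key : ∀ T : Finset (Zi m), (∀ l ∈ T, ‖zc l - x‖ ≤ ρ) → (T.card : ℝ) ≤ B * ρ ^ (m + 2) := by
    intro T hT
    have h1 := hC ρ⁻¹ (ρ⁻¹ • x) (by positivity) (inv_le_one_of_one_le₀ hρ)
    have h2 := (ENNReal.sum_le_tsum T).trans h1
    have h3 : ∑ l ∈ T, ENNReal.ofReal (((2 : ℝ) ^ (m + 3))⁻¹) ≤
        ∑ l ∈ T, ENNReal.ofReal (wt (m + 3) (ρ⁻¹ • zc l - ρ⁻¹ • x)) := by
      refine Finset.sum_le_sum fun l hl => ENNReal.ofReal_le_ofReal ?_
      unfold wt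
      have h4 : ‖ρ⁻¹ • zc l - ρ⁻¹ • x‖ ≤ 1 := by
        rw [← smul_sub, norm_smul, Real.norm_of_nonneg (by positivity), inv_mul_le_iff₀ hρ0, mul_one]
        exact hT l hl
      refine inv_anti₀ (by positivity) (pow_le_pow_left₀ (by positivity) (by linarith) _)
    have h5 := h3.trans h2
    rw [Finset.sum_const, nsmul_eq_mul, inv_inv] at h5
    have h6 : ((T.card : ℝ≥0∞)) = ENNReal.ofReal (T.card : ℝ) := by
      rw [ENNReal.ofReal_natCast]
    have h7 : ((C : ℝ≥0∞)) = ENNReal.ofReal (C : ℝ) := by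
      rw [ENNReal.ofReal_coe_nnreal]
    rw [h6, h7, ← ENNReal.ofReal_mul (by positivity), ← ENNReal.ofReal_mul (NNReal.coe_nonneg C),
      ENNReal.ofReal_le_ofReal_iff (by have := NNReal.coe_nonneg C; positivity), ← div_eq_mul_inv,
      div_le_iff₀ (by positivity)] at h5
    have h8 : 0 ≤ ρ ^ (m + 2) := by positivity
    calc (T.card : ℝ) ≤ (C : ℝ) * ρ ^ (m + 2) * 2 ^ (m + 3) := h5
      _ = (C : ℝ) * 2 ^ (m + 3) * ρ ^ (m + 2) := by ring
      _ ≤ B * ρ ^ (m + 2) := mul_le_mul_of_nonneg_right (by linarith) h8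
  have hfin : {l : Zi m | ‖zc l - x‖ ≤ ρ}.Finite := by
    by_contra hinf
    obtain ⟨T, hT1, hT2⟩ := Set.Infinite.exists_subset_card_eq hinf (⌊B * ρ ^ (m + 2)⌋₊ + 1)
    have h1 := key T (fun l hl => hT1 hl)
    rw [hT2] at h1
    push_cast at h1
    have h2 := Nat.lt_floor_add_one (B * ρ ^ (m + 2))
    linarith
  refine ⟨hfin, key _ fun l hl => ?_⟩
  exact hfin.mem_toFinset.1 hl

theorem integrable_e {m : ℕ} {G : Z m → ℂ} (hG : TC G) (z : Z m) :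
    Integrable fun ζ : Z m => e (ph z ζ) * G ζ := by
  have h1 : Continuous fun ζ : Z m => e (ph z ζ) := by
    unfold e ph
    fun_prop
  exact (h1.mul hG.1.continuous).integrable_of_hasCompactSupport hG.2.mul_left

theorem TF_split (hPUS : T_PUS) (hCPS : T_CPS) {m : ℕ} {β : E m → ℂ} (hβ : IsPU β) {κ R : ℝ}
    (hκ : κ ≤ 1 / 2) {G : Z m → ℂ} (hR : 1 ≤ R) (hG : TC G)
    (hsupp : ∀ ζ, G ζ ≠ 0 → ζ ∈ Rg m κ R⁻¹) (z : Z m) :
    TF G z = ∑ k ∈ Ks m (sR R), TP β (ctr (sR R) k) (sR R) G z := by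
  have hs := sR_pos hR
  have h1 : ∀ ζ, G ζ = ∑ k ∈ Ks m (sR R), cp β (ctr (sR R) k) (sR R) ζ * G ζ := by
    intro ζ
    by_cases h0 : G ζ = 0
    · simp [h0]
    · obtain ⟨a1, a2, a3, a4⟩ := hsupp ζ h0
      have h2 : 0 < ζ.1 := by linarith
      have h3 : ‖ζ.1⁻¹ • ζ.2.1‖ ≤ 3 / 2 := by
        rw [norm_smul, Real.norm_of_nonneg (by positivity), inv_mul_le_iff₀ h2]
        nlinarith
      rw [← Finset.sum_mul, ((hPUS m).1 β (sR R) hβ hs).2 (sR_le_one hR) ζ h3, one_mul]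
  have h2 : ∀ k, TC (fun ζ => cp β (ctr (sR R) k) (sR R) ζ * G ζ) := by
    intro k
    refine hCPS m β _ _ G hβ.1 hs hG fun ζ hζ => ?_
    have := (hsupp ζ hζ).1
    linarith
  unfold TP TF
  rw [← integral_finsetSum _ fun k _ => integrable_e (h2 k) z]
  refine integral_congr_ae (Filter.Eventually.of_forall fun ζ => ?_)
  simp only
  rw [← Finset.mul_sum, ← h1 ζ]

theorem pf_DCP (hTLS : T_TLS) (_hPTW : T_PTW) (_hAMU : T_AMU) (hWT3 : T_WT3) (hPUS : T_PUS)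
    (hLOB : T_LOB) (hLOA : T_LOA) (hCPS : T_CPS) (_hWT1 : T_WT1) : T_DCP := by
  classical
  intro m L β Ψ ψ δ M hβ hψ hδ hδ4
  obtain ⟨C1, hC1, hC1'⟩ := hTLS m L (m + 3) β Ψ ψ δ M hβ hψ hδ hδ4 le_rfl
  obtain ⟨-, -, D, hD, hDc, -, hctr⟩ := hPUS m
  obtain ⟨C2, hC2, hC2'⟩ := ball_card hWT3 m
  set F : ℝ := (1 + D) ^ 2 + 1 with hF
  have hF1 : 1 ≤ F := by nlinarith [sq_nonneg (1 + D)]
  refine ⟨C1 + D * C2 * F ^ (m + 2), by positivity, ?_⟩
  intro κ R A G z₀ hκ0 hκ hR hA hG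
  obtain ⟨hTC, hsupp, -⟩ := id hG
  have hR0 : 0 < R := by linarith
  have hs := sR_pos hR
  have hFR : 1 ≤ F * R := by nlinarith
  have hnear : ∀ W : Pk m, W.1 ∈ Ks m (sR R) → (∃ z, ‖z - z₀‖ ≤ R ∧ near R δ W z) →
      ‖zc W.2 - fc R δ W.1 z₀‖ ≤ F * R := by
    rintro W hW ⟨z, h1, h2⟩
    unfold near at h2
    have h3 := ((hLOB m D hD.le).1 (ctr (sR R) W.1) (sR R) (z - z₀)
      (hctr (sR R) W.1 hs (sR_le_one hR) hW) hs.le (sR_le_one hR)).1
    have h4 : ‖fc R δ W.1 z - fc R δ W.1 z₀‖ ≤ (1 + D) ^ 2 * R := by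
      rw [fc_sub hLOA, norm_smul, Real.norm_of_nonneg (by positivity)]
      have h5 : R ^ (-δ) ≤ 1 := Real.rpow_le_one_of_one_le_of_nonpos hR (by linarith)
      calc R ^ (-δ) * ‖Lo (ctr (sR R) W.1) (sR R) (z - z₀)‖ ≤ 1 * ((1 + D) ^ 2 * ‖z - z₀‖) :=
            mul_le_mul h5 h3 (norm_nonneg _) zero_le_one
        _ ≤ _ := by rw [one_mul]; exact mul_le_mul_of_nonneg_left h1 (by positivity)
    have h6 : R ^ δ ≤ R := by
      nth_rw 2 [← Real.rpow_one R]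
      exact Real.rpow_le_rpow_of_exponent_le hR (by linarith)
    have h7 : ‖zc W.2 - fc R δ W.1 z₀‖ ≤ ‖fc R δ W.1 z - zc W.2‖ +
        ‖fc R δ W.1 z - fc R δ W.1 z₀‖ := by
      have := norm_sub_le (fc R δ W.1 z - fc R δ W.1 z₀) (fc R δ W.1 z - zc W.2)
      rw [sub_sub_sub_cancel_left] at this
      linarith
    rw [hF]
    linarith
  set U : Finset (Pk m) := (Ks m (sR R)).biUnion fun k =>
    (hC2' (fc R δ k z₀) (F * R) hFR).1.toFinset.image fun l => (k, l) with hU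
  set S : Finset (Pk m) := U.filter fun W => ∃ z, ‖z - z₀‖ ≤ R ∧ near R δ W z with hS
  have hmem : ∀ W : Pk m, W ∈ S ↔ W.1 ∈ Ks m (sR R) ∧ ∃ z, ‖z - z₀‖ ≤ R ∧ near R δ W z := by
    intro W
    rw [hS, Finset.mem_filter, hU]
    constructor
    · rintro ⟨h1, h2⟩
      obtain ⟨k, hk, h3⟩ := Finset.mem_biUnion.1 h1
      obtain ⟨l, -, rfl⟩ := Finset.mem_image.1 h3
      exact ⟨hk, h2⟩
    · rintro ⟨h1, h2⟩
      refine ⟨Finset.mem_biUnion.2 ⟨W.1, h1, Finset.mem_image.2 ⟨W.2, ?_, rfl⟩⟩, h2⟩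
      exact ((hC2' _ _ hFR).1.mem_toFinset).2 (hnear W h1 h2)
  refine ⟨S, fun W hW => (hmem W).1 hW, ?_, ?_⟩
  · -- counting
    have h1 : S.card ≤ ∑ k ∈ Ks m (sR R), (hC2' (fc R δ k z₀) (F * R) hFR).1.toFinset.card :=
      (Finset.card_filter_le _ _).trans (Finset.card_biUnion_le.trans
        (Finset.sum_le_sum fun k _ => Finset.card_image_le))
    have h2 : (S.card : ℝ) ≤ ∑ k ∈ Ks m (sR R), C2 * (F * R) ^ (m + 2) := by
      refine (by exact_mod_cast h1 : (S.card : ℝ) ≤ ∑ k ∈ Ks m (sR R),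
        ((hC2' (fc R δ k z₀) (F * R) hFR).1.toFinset.card : ℝ)).trans ?_
      exact Finset.sum_le_sum fun k _ => (hC2' (fc R δ k z₀) (F * R) hFR).2
    rw [Finset.sum_const, nsmul_eq_mul] at h2
    have h3 := hDc (sR R) hs (sR_le_one hR)
    have h4 : ((sR R)⁻¹) ^ m ≤ R ^ m := by
      refine pow_le_pow_left₀ (by positivity) ?_ m
      have h5 := sR_inv_sq hR
      have h6 : 1 ≤ (sR R)⁻¹ := (one_le_inv₀ hs).2 (sR_le_one hR)
      nlinarith
    have h5 : (R : ℝ) ^ (2 * ((m : ℝ) + 2)) = R ^ (2 * (m + 2)) := by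
      rw [← Real.rpow_natCast]
      push_cast
      rfl
    rw [h5]
    calc (S.card : ℝ) ≤ (Ks m (sR R)).card * (C2 * (F * R) ^ (m + 2)) := h2
      _ ≤ (D * R ^ m) * (C2 * (F * R) ^ (m + 2)) := by
          refine mul_le_mul_of_nonneg_right (h3.trans ?_) (by positivity)
          exact mul_le_mul_of_nonneg_left h4 hD.le
      _ = D * C2 * F ^ (m + 2) * R ^ (2 * m + 2) := by ring_nf
      _ ≤ D * C2 * F ^ (m + 2) * R ^ (2 * (m + 2)) :=
          mul_le_mul_of_nonneg_left (pow_le_pow_right₀ hR (by omega)) (by positivity)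
      _ ≤ (C1 + D * C2 * F ^ (m + 2)) * R ^ (2 * (m + 2)) :=
          mul_le_mul_of_nonneg_right (by linarith) (by positivity)
  · -- the error
    intro z hz
    have hsum : ∀ k : Fin m → ℤ, HasSum (fun l : Zi m => Fp β ψ R δ G (k, l) z)
        (TP β (ctr (sR R) k) (sR R) G z) := by
      intro k
      have h1 := hψ.2.2.2.2 (fc R δ k z)
      have h2 := (Complex.ofRealCLM.hasSum h1).mul_left (TP β (ctr (sR R) k) (sR R) G z)
      simpa [Fp, Function.comp_def] using h2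
    have hlim : Tendsto (fun T : Finset (Zi m) => ∑ k ∈ Ks m (sR R), ∑ l ∈ T,
        Fp β ψ R δ G (k, l) z) atTop (nhds (TF G z)) := by
      rw [TF_split hPUS hCPS hβ hκ hR hTC hsupp z]
      exact tendsto_finsetSum _ fun k _ => hsum k
    have hlim2 := (hlim.sub_const (∑ W ∈ S, Fp β ψ R δ G W z)).norm
    refine le_of_tendsto hlim2 ?_
    filter_upwards [eventually_ge_atTop (S.image Prod.snd)] with T hT
    have h1 : S ⊆ Ks m (sR R) ×ˢ T := by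
      intro W hW
      exact Finset.mem_product.2 ⟨((hmem W).1 hW).1, hT (Finset.mem_image_of_mem _ hW)⟩
    have h2 : ∑ k ∈ Ks m (sR R), ∑ l ∈ T, Fp β ψ R δ G (k, l) z =
        ∑ W ∈ Ks m (sR R) ×ˢ T, Fp β ψ R δ G W z :=
      (Finset.sum_product' _ _ _).symm
    rw [h2, ← Finset.sum_sdiff h1, add_sub_cancel_right]
    refine (norm_sum_le _ _).trans ?_
    refine ((hC1' κ R A G ((Ks m (sR R) ×ˢ T) \ S) z hκ0 hκ hR hA hG ?_).1 ?_).trans ?_
    · intro W hW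
      exact (Finset.mem_product.1 (Finset.mem_sdiff.1 hW).1).1
    · intro W hW hn
      have h3 := Finset.mem_sdiff.1 hW
      exact h3.2 ((hmem W).2 ⟨(Finset.mem_product.1 h3.1).1, z, hz, hn⟩)
    · refine mul_le_mul_of_nonneg_right (mul_le_mul_of_nonneg_right ?_ hA.le) (by positivity)
      have : 0 ≤ D * C2 * F ^ (m + 2) := by positivity
      linarith

end Pool.Agent.H92.G.DCP
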